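import Pool.Agent.W345.GK.Cl2

/-!
# Elements fixed by the `q`-Cartier operator are combinations of logarithmic derivatives
-/

set_option autoImplicit false

open Polynomial Finset

namespace Pool.Agent.W63.GK
open Pool.Agent.W345.GK

theorem sum_units {k : Type} [Field k] [Fintype k] [DecidableEq k] (p r i : ℕ) (hp : p.Prime)
    (hq : Fintype.card k = p ^ r) (hi : i < r) :
    ∑ x : kˣ, ((x : k)⁻¹ * (x : k) ^ p ^ (r - i)) = if i = 0 then -1 else 0 := by
  have hpos : 0 < p ^ (r - i) := pow_pos hp.pos _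
  have h1 : ∀ x : kˣ, ((x : k)⁻¹ * (x : k) ^ p ^ (r - i)) = ((x : k) ^ (p ^ (r - i) - 1)) := by
    intro x
    obtain ⟨m, hm⟩ : ∃ m, p ^ (r - i) = m + 1 := ⟨p ^ (r - i) - 1, by omega⟩
    rw [hm, Nat.add_sub_cancel, pow_succ', ← mul_assoc, inv_mul_cancel₀ x.ne_zero, one_mul]
  rw [Finset.sum_congr rfl fun x _ => h1 x, FiniteField.sum_pow_units, hq]
  by_cases h0 : i = 0
  · rw [if_pos h0, h0, Nat.sub_zero, if_pos (dvd_refl _)]
  · rw [if_neg h0, if_neg]
    apply Nat.not_dvd_of_pos_of_lt
    · have : p ^ 1 ≤ p ^ (r - i) := Nat.pow_le_pow_right hp.pos (by omega)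
      have := hp.two_le
      rw [pow_one] at *
      omega
    · have : p ^ (r - i) < p ^ r := Nat.pow_lt_pow_right hp.one_lt (by omega)
      omega

section
variable {k Fc : Type} [Field k] [Field Fc] [Algebra k[X] Fc] {P : k[X]}

theorem op_add {x y : Fc} (hx : OP P x) (hy : OP P y) : OP P (x + y) := by
  obtain ⟨n, hn⟩ := hx
  obtain ⟨m, hm⟩ := hy
  refine ⟨n + m, ?_⟩
  have hP : IsIntegral k[X] (algebraMap k[X] Fc P) := isIntegral_algebraMap
  have : (algebraMap k[X] Fc P) ^ (n + m) * (x + y) =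
      (algebraMap k[X] Fc P) ^ m * ((algebraMap k[X] Fc P) ^ n * x) +
      (algebraMap k[X] Fc P) ^ n * ((algebraMap k[X] Fc P) ^ m * y) := by ring
  rw [this]
  exact ((hP.pow m).mul hn).add ((hP.pow n).mul hm)

theorem op_zero : OP P (0 : Fc) := ⟨0, by simpa using isIntegral_zero⟩

theorem op_smul {x : Fc} (u : k[X]) (hx : OP P x) : OP P (algebraMap k[X] Fc u * x) := by
  obtain ⟨n, hn⟩ := hx
  refine ⟨n, ?_⟩
  have : (algebraMap k[X] Fc P) ^ n * (algebraMap k[X] Fc u * x) =
      algebraMap k[X] Fc u * ((algebraMap k[X] Fc P) ^ n * x) := by ring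
  rw [this]
  exact isIntegral_algebraMap.mul hn

theorem op_sum {ι : Type} (s : Finset ι) (f : ι → Fc) (h : ∀ i ∈ s, OP P (f i)) :
    OP P (∑ i ∈ s, f i) := by
  classical
  induction s using Finset.induction_on with
  | empty => simpa using op_zero
  | insert a s ha ih =>
    rw [Finset.sum_insert ha]
    exact op_add (h a (Finset.mem_insert_self _ _))
      (ih fun i hi => h i (Finset.mem_insert_of_mem hi))

end

theorem iter_add {E : Type} [Field E] {D : E → E} (h : ∀ x y, D (x + y) = D x + D y) (n : ℕ) :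
    ∀ x y, D^[n] (x + y) = D^[n] x + D^[n] y := by
  induction n with
  | zero => intro x y; rfl
  | succ n ih =>
    intro x y
    rw [Function.iterate_succ_apply', Function.iterate_succ_apply', Function.iterate_succ_apply',
      ih, h]

theorem iter_sum {E : Type} [Field E] {D : E → E} (h : ∀ x y, D (x + y) = D x + D y)
    {ι : Type} (s : Finset ι) (f : ι → E) : D (∑ i ∈ s, f i) = ∑ i ∈ s, D (f i) := by
  exact map_sum (AddMonoidHom.mk' D h) f s

theorem spn (hC : S_CAR) (hJ : S_JAC) : S_SPN := by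
  intro k F Fc _ _ _ _ _ _ p _ _ P c Lam ι D hPm hPi hLam hEmb hD b hb hfix
  classical
  have hp : p.Prime := Fact.out
  have : CharP k[X] p := inferInstance
  have : CharP Fc p := charP_of_injective_algebraMap c.inj p
  have : ExpChar Fc p := ExpChar.prime hp
  obtain ⟨r', -, hr⟩ := FiniteField.card k p
  set r : ℕ := (r' : ℕ) with hrdef
  have hrpos : 0 < r := r'.pos
  -- constants
  set e : k → Fc := fun u => algebraMap k[X] Fc (C u) with he
  have emul : ∀ u v, e (u * v) = e u * e v := by
    intro u v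
    simp only [he, map_mul]
  have eneg : ∀ u, e (-u) = - e u := by
    intro u
    simp only [he, map_neg]
  have epow : ∀ u (n : ℕ), e (u ^ n) = e u ^ n := by
    intro u n
    simp only [he, map_pow]
  have eone : e 1 = 1 := by
    simp only [he, map_one]
  have ezero : e 0 = 0 := by
    simp only [he, map_zero]
  have esum : ∀ (f : kˣ → k), e (∑ x, f x) = ∑ x, e (f x) := by
    intro f
    simp only [he, map_sum]
  have eq : ∀ u : k, u ^ p ^ r = u := by
    intro u
    have := FiniteField.pow_card u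
    rwa [hr] at this
  have hDe : ∀ (u : k) (x : Fc), D (e u * x) = e u * D x := by
    intro u x
    have h0 : D (e u) = 0 := by
      simp only [he]
      rw [hD.base, derivative_C, map_zero]
    rw [hD.mul, h0, mul_zero, add_zero]
  have hDen : ∀ (n : ℕ) (u : k) (x : Fc), D^[n] (e u * x) = e u * D^[n] x := by
    intro n
    induction n with
    | zero => intro u x; rfl
    | succ n ih =>
      intro u x
      rw [Function.iterate_succ_apply', Function.iterate_succ_apply', ih, hDe]
  -- the Cartier operator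
  choose Cc hC1 hC2 hC3 using hC k F Fc p P c Lam ι D hPm hPi hLam hEmb hD
  have inj : ∀ x y : Fc, x ^ p = y ^ p → x = y := by
    intro x y h
    exact frobenius_inj Fc p (by rw [frobenius_def, frobenius_def, h])
  have Cadd : ∀ x y, Cc (x + y) = Cc x + Cc y := by
    intro x y
    apply inj
    rw [add_pow_char, hC1, hC1, hC1, iter_add hD.add]
    ring
  have Csm : ∀ (u : k) (x : Fc), Cc (e (u ^ p) * x) = e u * Cc x := by
    intro u x
    apply inj
    rw [mul_pow, hC1, hC1, hDen, ← epow]
    ring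
  have Cism : ∀ (i : ℕ) (u : k) (x : Fc), Cc^[i] (e (u ^ p ^ i) * x) = e u * Cc^[i] x := by
    intro i
    induction i with
    | zero => intro u x; simp
    | succ i ih =>
      intro u x
      rw [Function.iterate_succ_apply', Function.iterate_succ_apply', pow_succ', pow_mul, ih, Csm]
  have Cco : ∀ (i : ℕ) (x : Fc) (j : ℤ), ((ι (Cc^[i] x)).coeff j) ^ p ^ i =
      (ι x).coeff ((p : ℤ) ^ i * j - ((Fintype.card k : ℤ) - 1) * ((p : ℤ) ^ i - 1)) := by
    intro i
    induction i with
    | zero =>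
      intro x j
      simp
    | succ i ih =>
      intro x j
      rw [Function.iterate_succ_apply', pow_succ', pow_mul, hC3, ih]
      congr 1
      ring
  have hCr : Cc^[r] b = b := by
    apply ι.injective
    ext j
    have h1 := Cco r b j
    have h2 : ((p : ℤ) ^ r) = (Fintype.card k : ℤ) := by
      rw [hr]
      push_cast
      rfl
    rw [h2] at h1
    have h3 : (Fintype.card k : ℤ) * j - ((Fintype.card k : ℤ) - 1) * ((Fintype.card k : ℤ) - 1) =
        (Fintype.card k : ℤ) * j - ((Fintype.card k : ℤ) - 1) ^ 2 := by ring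
    rw [h3, ← hfix j] at h1
    obtain ⟨u, hu⟩ := hEmb.rat (Cc^[r] b) j
    rw [← hu, ← map_pow, eq, hu] at h1
    exact h1
  -- the elements y_c
  set y : kˣ → Fc := fun u => ∑ i ∈ range r, Cc^[i] (e u * b) with hy
  have hCy : ∀ u, Cc (y u) = y u := by
    intro u
    have h1 : Cc^[r] (e u * b) = e u * b := by
      conv_lhs => rw [← eq (u : k)]
      rw [Cism, hCr]
    have h2 : Cc (y u) = ∑ i ∈ range r, Cc^[i + 1] (e u * b) := by
      simp only [hy]
      rw [iter_sum Cadd]
      refine Finset.sum_congr rfl fun i _ => ?_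
      rw [Function.iterate_succ_apply']
    have h3 : ∑ i ∈ range r, Cc^[i + 1] (e u * b) + Cc^[0] (e u * b) =
        ∑ i ∈ range r, Cc^[i] (e u * b) + Cc^[r] (e u * b) :=
      (Finset.sum_range_succ' (fun i => Cc^[i] (e u * b)) r).symm.trans
        (Finset.sum_range_succ (fun i => Cc^[i] (e u * b)) r)
    rw [h1, Function.iterate_zero, id] at h3
    rw [h2]
    exact add_right_cancel h3
  have hyp : ∀ u, (y u) ^ p = - (D^[p - 1] (y u)) := by
    intro u
    rw [← hC1, hCy]
  have hOPC : ∀ (i : ℕ) (x : Fc), OP P x → OP P (Cc^[i] x) := by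
    intro i
    induction i with
    | zero => intro x hx; exact hx
    | succ i ih =>
      intro x hx
      rw [Function.iterate_succ_apply']
      exact hC2 _ (ih x hx)
  have hyOP : ∀ u, OP P (y u) := by
    intro u
    exact op_sum _ _ fun i _ => hOPC i _ (op_smul _ hb)
  have hf : ∀ u, ∃ f : Fc, f ≠ 0 ∧ D f = y u * f := fun u =>
    hJ k F Fc p P c Lam ι D hPm hPi hLam hEmb hD (y u) (hyp u)
  choose f hf0 hf1 using hf
  have hfd : ∀ u, D (f u) / f u = y u := by
    intro u
    rw [hf1, mul_div_assoc, div_self (hf0 u), mul_one]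
  -- the sum
  have hsum : ∑ u : kˣ, e ((u : k)⁻¹) * y u = - b := by
    have h1 : ∀ u : kˣ, e ((u : k)⁻¹) * y u =
        ∑ i ∈ range r, e ((u : k)⁻¹ * (u : k) ^ p ^ (r - i)) * Cc^[i] b := by
      intro u
      simp only [hy]
      rw [Finset.mul_sum]
      refine Finset.sum_congr rfl fun i hi => ?_
      have hir : i < r := Finset.mem_range.1 hi
      have h2 : (u : k) = ((u : k) ^ p ^ (r - i)) ^ p ^ i := by
        rw [← pow_mul, ← pow_add, Nat.sub_add_cancel hir.le, eq]
      have h3 : Cc^[i] (e u * b) = e ((u : k) ^ p ^ (r - i)) * Cc^[i] b := by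
        conv_lhs => rw [h2]
        rw [Cism]
      rw [h3, emul, mul_assoc]
    rw [Finset.sum_congr rfl fun u _ => h1 u, Finset.sum_comm]
    have h4 : ∀ i ∈ range r, ∑ u : kˣ, e ((u : k)⁻¹ * (u : k) ^ p ^ (r - i)) * Cc^[i] b =
        if i = 0 then - b else 0 := by
      intro i hi
      rw [← Finset.sum_mul, ← esum, sum_units p r i hp hr (Finset.mem_range.1 hi)]
      by_cases h0 : i = 0
      · rw [if_pos h0, if_pos h0, h0, eneg, eone]
        simp
      · rw [if_neg h0, if_neg h0, ezero, zero_mul]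
    rw [Finset.sum_congr rfl h4, Finset.sum_ite_eq' (range r) 0 (fun _ => - b),
      if_pos (Finset.mem_range.2 hrpos)]
  refine ⟨Fintype.card kˣ, fun i => - (((Fintype.equivFin kˣ).symm i : kˣ) : k)⁻¹,
    fun i => f ((Fintype.equivFin kˣ).symm i), ?_, ?_⟩
  · intro i
    refine ⟨hf0 _, ?_⟩
    simp only
    rw [hfd]
    exact hyOP _
  · have h5 : ∑ i, algebraMap k[X] Fc (C (- (((Fintype.equivFin kˣ).symm i : kˣ) : k)⁻¹)) *
        (D (f ((Fintype.equivFin kˣ).symm i)) / f ((Fintype.equivFin kˣ).symm i)) =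
        ∑ u : kˣ, e (- (u : k)⁻¹) * y u := by
      rw [← Equiv.sum_comp (Fintype.equivFin kˣ).symm]
      refine Finset.sum_congr rfl fun i _ => ?_
      rw [hfd]
    rw [h5]
    have h6 : ∑ u : kˣ, e (- (u : k)⁻¹) * y u = - ∑ u : kˣ, e ((u : k)⁻¹) * y u := by
      rw [← Finset.sum_neg_distrib]
      refine Finset.sum_congr rfl fun u _ => ?_
      rw [eneg, neg_mul]
    rw [h6, hsum, neg_neg]

end Pool.Agent.W63.GK
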